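import Pool.Agent.Helper97.FS.Stmts

set_option autoImplicit false

namespace Pool.Agent.Helper97.FS

open Finset MeasureTheory Filter Topology UnitAddTorus
open scoped ComplexConjugate
open Pool.Agent.Helper97.Sub

variable {d : ℕ}

theorem wflat_ab_append (U V : List (Fin d)) : ab (U ++ V) = ab U + ab V := by
  funext a
  simp [ab]

theorem wflat_len_add (L : Fin d → ℝ) (i j : Fin d → ℤ) : len L (i + j) = len L i + len L j := by
  unfold len
  rw [← sum_add_distrib]
  refine sum_congr rfl fun a _ => ?_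
  simp only [Pi.add_apply]
  push_cast
  ring

theorem wflat_len_nonneg {L : Fin d → ℝ} (hL : ∀ a, 0 < L a) (V : List (Fin d)) :
    0 ≤ len L (ab V) := by
  unfold len ab
  refine sum_nonneg fun a _ => ?_
  have := (hL a).le
  positivity

theorem wflat_len_single (L : Fin d → ℝ) (c : Fin d) : len L (ab [c]) = L c := by
  unfold len ab
  rw [sum_eq_single c]
  · simp
  · intro b _ hb
    simp [Ne.symm hb]
  · simp

theorem wflat_len_cons (L : Fin d → ℝ) (c : Fin d) (V : List (Fin d)) :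
    len L (ab (c :: V)) = L c + len L (ab V) := by
  rw [show c :: V = [c] ++ V from rfl, wflat_ab_append, wflat_len_add, wflat_len_single]

theorem wflat_len_flatMap {L : Fin d → ℝ} {κ : ℝ} {τ : Fin d → List (Fin d)}
    (h : ∀ c, len L (ab (τ c)) = κ * L c) (V : List (Fin d)) :
    len L (ab (V.flatMap τ)) = κ * len L (ab V) := by
  induction V with
  | nil => simp [ab, len]
  | cons c V ih =>
    rw [List.flatMap_cons, wflat_ab_append, wflat_len_add, ih, h, wflat_len_cons]
    ring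

theorem wflat_len_T {σ : Fin d → List (Fin d)} {M : Matrix (Fin d) (Fin d) ℤ} {θ : ℝ}
    {L f : Fin d → ℝ} (h : PFD σ M θ L f) (k : ℕ) (a : Fin d) :
    len L (ab (T σ k a)) = θ ^ k * L a := by
  induction k generalizing a with
  | zero => rw [T_zero, wflat_len_single]; simp
  | succ k ih =>
    rw [T_succ, wflat_len_flatMap (fun c => ih c)]
    have : len L (ab (σ a)) = θ * L a := by
      rw [← h.left a]
      unfold len ab
      refine sum_congr rfl fun b _ => ?_
      rw [h.cntM b a]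
    rw [this]
    ring

theorem wflat_yw_norm {y : Fin d → ℂ} (hy : ∀ a, ‖y a‖ = 1) (V : List (Fin d)) :
    ‖yw y V‖ = 1 := by
  induction V with
  | nil => simp [yw]
  | cons c V ih =>
    have : yw y (c :: V) = y c * yw y V := by simp [yw]
    rw [this, norm_mul, hy, ih, one_mul]

theorem wflat_WS_flatMap {y : Fin d → ℂ} (hy : ∀ a, ‖y a‖ = 1) (E : Fin d → ℂ)
    (τ : Fin d → List (Fin d)) {A : ℝ} (hA : ∀ c, ‖WS y E (τ c)‖ ≤ A) (V : List (Fin d)) :
    ‖WS y E (V.flatMap τ)‖ ≤ V.length * A := by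
  induction V with
  | nil => simp [WS]
  | cons c V ih =>
    rw [List.flatMap_cons, WS_append, List.length_cons]
    refine (norm_add_le _ _).trans ?_
    rw [norm_mul, wflat_yw_norm hy, one_mul]
    have := hA c
    push_cast
    linarith

theorem wflat_WS_append_le {y : Fin d → ℂ} (hy : ∀ a, ‖y a‖ = 1) (E : Fin d → ℂ)
    (U V : List (Fin d)) : ‖WS y E (U ++ V)‖ ≤ ‖WS y E U‖ + ‖WS y E V‖ := by
  rw [WS_append]
  refine (norm_add_le _ _).trans ?_
  rw [norm_mul, wflat_yw_norm hy, one_mul]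

theorem wflat_WS_right_le {y : Fin d → ℂ} (hy : ∀ a, ‖y a‖ = 1) (E : Fin d → ℂ)
    (U V : List (Fin d)) : ‖WS y E V‖ ≤ ‖WS y E (U ++ V)‖ + ‖WS y E U‖ := by
  have h := WS_append y E U V
  have h2 : yw y U * WS y E V = WS y E (U ++ V) - WS y E U := by rw [h]; ring
  have h3 : ‖yw y U * WS y E V‖ = ‖WS y E V‖ := by
    rw [norm_mul, wflat_yw_norm hy, one_mul]
  rw [← h3, h2]
  exact norm_sub_le _ _

/-- words of the language are infixes of tiles of high level -/
theorem wflat_high {σ : Fin d → List (Fin d)} {M : Matrix (Fin d) (Fin d) ℤ}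
    {θ : ℝ} {L f : Fin d → ℝ} (h : PFD σ M θ L f) {W : List (Fin d)}
    (hW : ∃ n a, W <:+: T σ n a) (N : ℕ) : ∃ n a, N ≤ n ∧ W <:+: T σ n a := by
  obtain ⟨k₀, hk₀⟩ := h.prim
  have hp : ∀ a b, a ∈ T σ (k₀ + 1) b := by
    intro a b
    rw [T_succ]
    obtain ⟨c, hc⟩ := List.exists_mem_of_ne_nil _ (h.ne b)
    exact List.mem_flatMap.2 ⟨c, hc, mem_T h.cntM k₀ a c (hk₀ a c)⟩
  induction N with
  | zero =>
    obtain ⟨n, a, h1⟩ := hW
    exact ⟨n, a, Nat.zero_le _, h1⟩
  | succ N ih =>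
    obtain ⟨n, a, hn, h1⟩ := ih
    refine ⟨(k₀ + 1) + n, a, by omega, ?_⟩
    rw [T_add]
    refine h1.trans ?_
    obtain ⟨s, t, hst⟩ := List.append_of_mem (hp a a)
    rw [hst, List.flatMap_append, List.flatMap_cons]
    exact ⟨s.flatMap (T σ n), t.flatMap (T σ n), by simp⟩

/-- the constant of the arithmetico-geometric series -/
theorem wflat_Ct (r : ℝ) (hr : 1 < r) : ∃ Ct : ℝ, 0 < Ct ∧ (∀ l : ℕ, (l : ℝ) + 1 ≤ Ct * r ^ l) ∧
    ∀ n : ℕ, ∑ l ∈ range n, ((l : ℝ) + 1) * (r⁻¹) ^ l ≤ Ct := by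
  have hr0 : 0 < r := by linarith
  have hx0 : 0 ≤ r⁻¹ := by positivity
  have hx1 : r⁻¹ < 1 := inv_lt_one_of_one_lt₀ hr
  have hs : Summable (fun l : ℕ => ((l : ℝ) + 1) * (r⁻¹) ^ l) := by
    have h1 : Summable (fun l : ℕ => (l : ℝ) ^ 1 * (r⁻¹) ^ l) :=
      summable_pow_mul_geometric_of_norm_lt_one 1 (by rwa [Real.norm_of_nonneg hx0])
    have h2 : Summable (fun l : ℕ => (r⁻¹) ^ l) := summable_geometric_of_lt_one hx0 hx1
    refine (h1.add h2).congr fun l => ?_
    ring
  have hnn : ∀ l : ℕ, 0 ≤ ((l : ℝ) + 1) * (r⁻¹) ^ l := fun l => by positivity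
  refine ⟨∑' l : ℕ, ((l : ℝ) + 1) * (r⁻¹) ^ l, ?_, ?_, ?_⟩
  · exact hs.tsum_pos hnn 0 (by simp)
  · intro l
    have h1 : ((l : ℝ) + 1) * (r⁻¹) ^ l ≤ ∑' l : ℕ, ((l : ℝ) + 1) * (r⁻¹) ^ l :=
      hs.le_tsum l (fun j _ => hnn j)
    have h2 : (l : ℝ) + 1 = ((l : ℝ) + 1) * (r⁻¹) ^ l * r ^ l := by
      rw [mul_assoc, ← mul_pow, inv_mul_cancel₀ hr0.ne', one_pow, mul_one]
    rw [h2]
    exact mul_le_mul_of_nonneg_right h1 (by positivity)
  · intro n
    exact hs.sum_le_tsum _ (fun j _ => hnn j)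

/-- the sum of the energies -/
theorem wflat_sum (θ : ℝ) (hθ : 1 < θ) : ∃ Ct : ℝ, 0 < Ct ∧ ∀ (C0 K1 ρ : ℝ) (k n' n0 : ℕ)
    (V : ℝ → ℝ), 0 < ρ → ((k : ℝ) + 1) ≤ Real.sqrt (ρ * θ ^ k) → Cnd θ C0 K1 ρ k n' n0 V →
    ∀ i, k ≤ i → i ≤ k + n0 →
      ((i : ℝ) + 1) + ∑ j ∈ range (i + 1), ((i : ℝ) - j + 1) * Real.sqrt (θ ^ j * V (C0 * θ ^ j)) ≤
        4 * Ct * Real.sqrt (ρ * θ ^ i) := by
  set r := Real.sqrt θ with hr
  have hr1 : 1 < r := by rw [hr, Real.lt_sqrt (by norm_num)]; simpa using hθ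
  have hr0 : 0 < r := by linarith
  obtain ⟨Ct, hCt0, hCt1, hCt2⟩ := wflat_Ct r hr1
  refine ⟨Ct, hCt0, ?_⟩
  intro C0 K1 ρ k n' n0 V hρ hk hC i hki hin
  obtain ⟨c1, c2, c3, c4⟩ := hC
  have hsq : ∀ j : ℕ, Real.sqrt (ρ * θ ^ j) = Real.sqrt ρ * r ^ j := by
    intro j
    rw [Real.sqrt_mul hρ.le, hr]
    congr 1
    have e : θ ^ j = (Real.sqrt θ ^ j) ^ 2 := by
      rw [← pow_mul, mul_comm j 2, pow_mul, Real.sq_sqrt (by linarith)]
    rw [e, Real.sqrt_sq (by positivity)]
  have hsρ : 0 < Real.sqrt ρ := Real.sqrt_pos.2 hρ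
  rw [hsq] at hk c4 ⊢
  have hri : r ^ (i - k) * r ^ k = r ^ i := by rw [← pow_add]; congr 1; omega
  have hik : ((i - k : ℕ) : ℝ) = (i : ℝ) - k := by push_cast [hki]; ring
  -- first part
  have h1 : (i : ℝ) + 1 ≤ Ct * (Real.sqrt ρ * r ^ i) := by
    have a1 := hCt1 (i - k)
    rw [hik] at a1
    have hk0 : (0 : ℝ) ≤ k := Nat.cast_nonneg _
    have hi0 : (k : ℝ) ≤ i := by exact_mod_cast hki
    calc (i : ℝ) + 1 ≤ ((i : ℝ) - k + 1) * ((k : ℝ) + 1) := by nlinarith
      _ ≤ (Ct * r ^ (i - k)) * (Real.sqrt ρ * r ^ k) := by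
          apply mul_le_mul a1 hk (by positivity) (by positivity)
      _ = Ct * (Real.sqrt ρ * r ^ i) := by rw [← hri]; ring
  -- splitting
  set S : ℕ → ℝ := fun j => ((i : ℝ) - j + 1) * Real.sqrt (θ ^ j * V (C0 * θ ^ j)) with hS
  have hsplit : ∑ j ∈ range (i + 1), S j =
      ∑ j ∈ range (k - n'), S j + ∑ j ∈ Ico (k - n') (i + 1), S j := by
    rw [range_eq_Ico, range_eq_Ico, sum_Ico_consecutive _ (Nat.zero_le _) (by omega)]
  have h2 : ∑ j ∈ range (k - n'), S j ≤ Ct * (Real.sqrt ρ * r ^ i) := by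
    calc ∑ j ∈ range (k - n'), S j
        ≤ ∑ j ∈ range (k - n'), ((i : ℝ) - k + 1) *
            (((k : ℝ) - j + 1) * Real.sqrt (θ ^ j * V (C0 * θ ^ j))) := by
          refine sum_le_sum fun j hj => ?_
          rw [mem_range] at hj
          have hjk : (j : ℝ) ≤ k := by exact_mod_cast (by omega : j ≤ k)
          have hi0 : (k : ℝ) ≤ i := by exact_mod_cast hki
          rw [hS, ← mul_assoc]
          refine mul_le_mul_of_nonneg_right ?_ (Real.sqrt_nonneg _)
          nlinarith [mul_nonneg (sub_nonneg.2 hi0) (sub_nonneg.2 hjk)]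
      _ = ((i : ℝ) - k + 1) * ∑ j ∈ range (k - n'),
            ((k : ℝ) - j + 1) * Real.sqrt (θ ^ j * V (C0 * θ ^ j)) := by rw [mul_sum]
      _ ≤ (Ct * r ^ (i - k)) * (Real.sqrt ρ * r ^ k) := by
          have a1 := hCt1 (i - k)
          rw [hik] at a1
          refine mul_le_mul a1 c4 ?_ (by positivity)
          refine sum_nonneg fun j hj => ?_
          rw [mem_range] at hj
          have hjk : (j : ℝ) ≤ k := by exact_mod_cast (by omega : j ≤ k)
          have : (0 : ℝ) ≤ (k : ℝ) - j + 1 := by linarith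
          positivity
      _ = Ct * (Real.sqrt ρ * r ^ i) := by rw [← hri]; ring
  have h3 : ∑ j ∈ Ico (k - n') (i + 1), S j ≤ 2 * (Ct * (Real.sqrt ρ * r ^ i)) := by
    calc ∑ j ∈ Ico (k - n') (i + 1), S j
        ≤ ∑ j ∈ Ico (k - n') (i + 1), 2 * Real.sqrt ρ * (((i : ℝ) - j + 1) * r ^ j) := by
          refine sum_le_sum fun j hj => ?_
          rw [mem_Ico] at hj
          have hV := c2 j (by omega) (by omega)
          have hji : (j : ℝ) ≤ i := by exact_mod_cast (by omega : j ≤ i)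
          have a1 : Real.sqrt (θ ^ j * V (C0 * θ ^ j)) ≤ 2 * Real.sqrt ρ * r ^ j := by
            have a2 : Real.sqrt (θ ^ j * V (C0 * θ ^ j)) ≤ Real.sqrt (4 * (ρ * θ ^ j)) := by
              refine Real.sqrt_le_sqrt ?_
              have : 0 ≤ θ ^ j := by positivity
              nlinarith
            refine a2.trans (le_of_eq ?_)
            rw [Real.sqrt_mul (by norm_num), hsq, show (4 : ℝ) = 2 ^ 2 by norm_num,
              Real.sqrt_sq (by norm_num)]
            ring
          rw [hS]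
          calc ((i : ℝ) - j + 1) * Real.sqrt (θ ^ j * V (C0 * θ ^ j))
              ≤ ((i : ℝ) - j + 1) * (2 * Real.sqrt ρ * r ^ j) :=
                mul_le_mul_of_nonneg_left a1 (by linarith)
            _ = _ := by ring
      _ ≤ ∑ j ∈ range (i + 1), 2 * Real.sqrt ρ * (((i : ℝ) - j + 1) * r ^ j) := by
          refine sum_le_sum_of_subset_of_nonneg ?_ ?_
          · intro j hj
            rw [mem_Ico] at hj
            rw [mem_range]; omega
          · intro j hj _
            rw [mem_range] at hj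
            have hji : (j : ℝ) ≤ i := by exact_mod_cast (by omega : j ≤ i)
            have : (0 : ℝ) ≤ (i : ℝ) - j + 1 := by linarith
            positivity
      _ = 2 * Real.sqrt ρ * r ^ i * ∑ l ∈ range (i + 1), ((l : ℝ) + 1) * (r⁻¹) ^ l := by
          rw [← mul_sum, mul_assoc (2 * Real.sqrt ρ)]
          congr 1
          rw [mul_sum, ← sum_range_reflect]
          refine sum_congr rfl fun j hj => ?_
          rw [mem_range] at hj
          have e1 : i + 1 - 1 - j = i - j := by omega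
          rw [e1]
          have hji : j ≤ i := by omega
          push_cast [hji]
          have e2 : r ^ i * r⁻¹ ^ j = r ^ (i - j) := by
            rw [inv_pow, ← div_eq_mul_inv, pow_sub₀ _ hr0.ne' hji]
            rfl
          rw [← e2]
          ring
      _ ≤ 2 * Real.sqrt ρ * r ^ i * Ct := mul_le_mul_of_nonneg_left (hCt2 _) (by positivity)
      _ = _ := by ring
  rw [hsplit]
  linarith

theorem st_WFLAT (hWEST : ST_WEST) (hWLO : ST_WLO) : ST_WFLAT := by
  intro d σ M θ L f gam hD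
  obtain ⟨C0, C1, hC0, hC1, hE⟩ := hWEST d σ M θ L f gam hD
  obtain ⟨Cm, hCm, hlo⟩ := hWLO d σ M θ L f gam hD
  have hθ := hD.one_lt
  obtain ⟨Ct, hCt, hsum⟩ := wflat_sum θ hθ
  have hd : 0 < d := by
    rcases Nat.eq_zero_or_pos d with h | h
    · subst h
      have := hD.fsum
      simp at this
    · exact h
  -- minimal tile length
  obtain ⟨a₀, _, ha₀⟩ := exists_min_image (univ : Finset (Fin d)) L ⟨⟨0, hd⟩, mem_univ _⟩
  set Lm := L a₀ with hLm
  have hLm0 : 0 < Lm := hD.Lpos a₀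
  set P := 4 * C1 * Ct with hP
  have hP0 : 0 ≤ P := by positivity
  set K1 : ℝ := 4 * (d + 1) * (2 * P + 1) ^ 2 with hK1
  have hK10 : 0 < K1 := by positivity
  set cF := Lm / (K1 + Cm) with hcF
  have hcF0 : 0 < cF := by positivity
  refine ⟨C0, K1, P + 1, cF, hC0, hK10, by linarith, hcF0, ?_⟩
  intro y hy ρ hρ k n' n0 hk hC i hki hin
  have hs := hsum C0 K1 ρ k n' n0 (VV gam L y) hρ hk hC i hki hin
  obtain ⟨hE1, hE2⟩ := hE y hy i
  have hθi : 0 < θ ^ i := by positivity
  set X := Real.sqrt (ρ * θ ^ i) with hX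
  have hX0 : 0 < X := Real.sqrt_pos.2 (by positivity)
  have hX2 : X ^ 2 = ρ * θ ^ i := Real.sq_sqrt (by positivity)
  have hpre : ∀ b c p, (p <+: T σ i b ∨ p <:+ T σ i b) → ‖WS y (Pi.single c 1) p‖ ≤ P * X := by
    intro b c p hp
    refine (hE2 b c p hp).trans ?_
    calc C1 * (((i : ℝ) + 1) + ∑ j ∈ range (i + 1), ((i : ℝ) - j + 1) *
        Real.sqrt (θ ^ j * VV gam L y (C0 * θ ^ j))) ≤ C1 * (4 * Ct * X) :=
          mul_le_mul_of_nonneg_left hs hC1
      _ = P * X := by rw [hP]; ring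
  refine ⟨?_, ?_⟩
  · intro b c
    refine (hpre b c (T σ i b) (Or.inl (List.prefix_refl _))).trans ?_
    nlinarith
  · by_contra hcon
    push Not at hcon
    have hV := hC.2.2.1 i hki hin
    obtain ⟨W, hWL, hWlen, hWlo⟩ := hlo y hy (K1 * θ ^ i) ρ (by positivity) hρ hV
    obtain ⟨n, a, hin', hW⟩ := wflat_high hD.toPFD hWL i
    obtain ⟨m, rfl⟩ : ∃ m, n = m + i := ⟨n - i, by omega⟩
    rw [T_add] at hW
    have hone : (1 : ℝ) ≤ θ ^ i := one_le_pow₀ hθ.le
    -- the upper bound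
    have hup : ∀ c, ‖WS y (Pi.single c 1) W‖ ≤ (2 * P + 1) * X := by
      intro c
      rcases inf_flatMap (T σ i) (T σ m a) W hW with (h1 | ⟨b, _, h1⟩) |
        ⟨s, v', p, e, ⟨b, _, h2⟩, _, h4⟩
      · rw [h1]
        simp only [WS, norm_zero]
        positivity
      · obtain ⟨p, q, hpq⟩ := h1
        have b1 : ‖WS y (Pi.single c 1) (p ++ W)‖ ≤ P * X :=
          hpre b c (p ++ W) (Or.inl ⟨q, hpq⟩)
        have b2 : ‖WS y (Pi.single c 1) p‖ ≤ P * X :=
          hpre b c p (Or.inl ⟨W ++ q, by rw [← hpq]; simp⟩)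
        have b3 := wflat_WS_right_le hy (Pi.single c 1) p W
        nlinarith
      · have b1 := wflat_WS_append_le hy (Pi.single c 1) s (v'.flatMap (T σ i) ++ p)
        have b2 := wflat_WS_append_le hy (Pi.single c 1) (v'.flatMap (T σ i)) p
        have b3 : ‖WS y (Pi.single c 1) s‖ ≤ P * X := hpre b c s (Or.inr h2)
        have b4 : ‖WS y (Pi.single c 1) p‖ ≤ P * X := by
          rcases h4 with rfl | ⟨c', _, h4⟩
          · simp only [WS, norm_zero]
            positivity
          · exact hpre c' c p (Or.inl h4)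
        have b5 := wflat_WS_flatMap hy (Pi.single c 1) (T σ i) (A := cF * X)
          (fun b' => (hcon b' c).le) v'
        have b6 : (v'.length : ℝ) * (Lm * θ ^ i) ≤ (K1 + Cm) * θ ^ i := by
          have b7 : (v'.length : ℝ) * (Lm * θ ^ i) ≤ len L (ab (v'.flatMap (T σ i))) := by
            rw [wflat_len_flatMap (fun c => wflat_len_T hD.toPFD i c)]
            have b8 : ∀ v : List (Fin d), (v.length : ℝ) * Lm ≤ len L (ab v) := by
              intro v
              induction v with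
              | nil => simp [ab, len]
              | cons c v ih =>
                rw [wflat_len_cons, List.length_cons]
                have := ha₀ c (mem_univ _)
                push_cast
                linarith
            have := b8 v'
            calc (v'.length : ℝ) * (Lm * θ ^ i) = θ ^ i * (v'.length * Lm) := by ring
              _ ≤ _ := mul_le_mul_of_nonneg_left this hθi.le
          have b9 : len L (ab (v'.flatMap (T σ i))) ≤ len L (ab W) := by
            rw [e, wflat_ab_append, wflat_ab_append, wflat_len_add, wflat_len_add]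
            have := wflat_len_nonneg hD.Lpos s
            have := wflat_len_nonneg hD.Lpos p
            linarith
          have b10 : Cm ≤ Cm * θ ^ i := le_mul_of_one_le_right hCm hone
          linarith
        have b7 : (v'.length : ℝ) * Lm ≤ K1 + Cm := by
          have : (v'.length : ℝ) * Lm * θ ^ i ≤ (K1 + Cm) * θ ^ i := by linarith
          exact le_of_mul_le_mul_right this hθi
        have b8 : (v'.length : ℝ) * (cF * X) ≤ X := by
          have : (v'.length : ℝ) * cF ≤ 1 := by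
            rw [hcF, ← mul_div_assoc, div_le_one (by positivity)]
            exact b7
          calc (v'.length : ℝ) * (cF * X) = (v'.length * cF) * X := by ring
            _ ≤ 1 * X := mul_le_mul_of_nonneg_right this hX0.le
            _ = X := one_mul _
        rw [← e] at b1
        linarith
    have hS : ∑ c, ‖WS y (Pi.single c 1) W‖ ^ 2 ≤ d * ((2 * P + 1) * X) ^ 2 := by
      calc ∑ c, ‖WS y (Pi.single c 1) W‖ ^ 2 ≤ ∑ _c : Fin d, ((2 * P + 1) * X) ^ 2 := by
            refine sum_le_sum fun c _ => ?_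
            exact pow_le_pow_left₀ (norm_nonneg _) (hup c) 2
        _ = _ := by simp
    have h1 : ρ * (K1 * θ ^ i) / 4 = (d + 1) * ((2 * P + 1) * X) ^ 2 := by
      rw [mul_pow, hX2, hK1]
      ring
    rw [h1] at hWlo
    have h2 : 0 < ((2 * P + 1) * X) ^ 2 := by positivity
    linarith

end Pool.Agent.Helper97.FS
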