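import Pool.Agent.Helper97.FS.Stmts
import Pool.Agent.Helper33.FS.WFLAT

set_option autoImplicit false

namespace Pool.Agent.Helper97.FS

open Finset MeasureTheory Filter Topology UnitAddTorus
open scoped ComplexConjugate
open Pool.Agent.Helper97.Sub

variable {d : ℕ}

theorem z3_norm_mF {n : ℕ} (m : Fin n → ℤ) (x : UnitAddTorus (Fin n)) : ‖mFourier m x‖ = 1 := by
  simp only [mFourier, fourier_apply, ContinuousMap.coe_mk, norm_prod, Circle.norm_coe,
    prod_const_one]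

theorem z3_fourier_sub (k : ℤ) (x y : UnitAddCircle) :
    (fourier k (x - y) : ℂ) = fourier k x * conj (fourier k y) := by
  rw [← fourier_neg, fourier_apply, fourier_apply, fourier_apply, smul_sub, sub_eq_add_neg,
    AddCircle.toCircle_add, ← neg_smul]
  simp

theorem z3_mF_sub {n : ℕ} (m : Fin n → ℤ) (x y : UnitAddTorus (Fin n)) :
    mFourier m (x - y) = mFourier m x * conj (mFourier m y) := by
  simp only [mFourier, ContinuousMap.coe_mk, map_prod, ← prod_mul_distrib]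
  refine prod_congr rfl fun i _ => ?_
  rw [Pi.sub_apply, z3_fourier_sub]

theorem z3_norm_yv {s n : ℕ} (p : (Fin d → ℤ) →+ (Fin s → ℤ)) (q : (Fin d → ℤ) →+ (Fin n → ℤ))
    (η : UnitAddTorus (Fin s)) (x : UnitAddTorus (Fin n)) (a : Fin d) : ‖yv p q η x a‖ = 1 := by
  unfold yv
  rw [norm_mul, z3_norm_mF, z3_norm_mF, one_mul]

theorem z3_yv_sub {s n : ℕ} (p : (Fin d → ℤ) →+ (Fin s → ℤ)) (q : (Fin d → ℤ) →+ (Fin n → ℤ))
    (η η' : UnitAddTorus (Fin s)) (x x' : UnitAddTorus (Fin n)) (a : Fin d) :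
    yv p q (η - η') (x - x') a = yv p q η x a * conj (yv p q η' x' a) := by
  unfold yv
  rw [z3_mF_sub, z3_mF_sub, map_mul]
  ring

theorem z3_yv_cont {s n : ℕ} (p : (Fin d → ℤ) →+ (Fin s → ℤ)) (q : (Fin d → ℤ) →+ (Fin n → ℤ))
    (a : Fin d) : Continuous fun z : UnitAddTorus (Fin s) × UnitAddTorus (Fin n) =>
      yv p q z.1 z.2 a := by
  unfold yv
  exact ((mFourier (p (Pi.single a 1))).continuous.comp continuous_fst).mul
    ((mFourier (q (Pi.single a 1))).continuous.comp continuous_snd)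

theorem z3_yw_cons (y : Fin d → ℂ) (c : Fin d) (V : List (Fin d)) :
    yw y (c :: V) = y c * yw y V := by simp [yw]

theorem z3_yw_cont {s n : ℕ} (p : (Fin d → ℤ) →+ (Fin s → ℤ)) (q : (Fin d → ℤ) →+ (Fin n → ℤ))
    (V : List (Fin d)) : Continuous fun z : UnitAddTorus (Fin s) × UnitAddTorus (Fin n) =>
      yw (yv p q z.1 z.2) V := by
  induction V with
  | nil => simpa [yw] using continuous_const
  | cons c V ih =>
    simp only [z3_yw_cons]
    exact (z3_yv_cont p q c).mul ih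

theorem z3_yw_sub {s n : ℕ} (p : (Fin d → ℤ) →+ (Fin s → ℤ)) (q : (Fin d → ℤ) →+ (Fin n → ℤ))
    (V : List (Fin d)) (z w : UnitAddTorus (Fin s) × UnitAddTorus (Fin n)) :
      yw (yv p q (z - w).1 (z - w).2) V =
        yw (yv p q z.1 z.2) V * conj (yw (yv p q w.1 w.2) V) := by
  induction V with
  | nil => simp [yw]
  | cons c V ih =>
    rw [z3_yw_cons, z3_yw_cons, z3_yw_cons, ih, Prod.fst_sub, Prod.snd_sub, z3_yv_sub, map_mul]
    ring

theorem z3_WS_flatMap (y E : Fin d → ℂ) (τ : Fin d → List (Fin d)) (V : List (Fin d)) :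
    WS y E (V.flatMap τ) = WS (fun a => yw y (τ a)) (fun a => WS y E (τ a)) V := by
  induction V with
  | nil => simp [WS]
  | cons c V ih => rw [List.flatMap_cons, WS_append, WS, ih]

theorem z3_WS_one (E : Fin d → ℂ) (V : List (Fin d)) :
    WS (fun _ => 1) E V = ∑ a, ((V.count a : ℕ) : ℂ) * E a := by
  induction V with
  | nil => simp [WS]
  | cons c V ih =>
    rw [WS, ih, one_mul]
    have : ∀ a, (((c :: V).count a : ℕ) : ℂ) * E a
        = ((V.count a : ℕ) : ℂ) * E a + (if c = a then E a else 0) := by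
      intro a
      rw [List.count_cons]
      by_cases h : c = a
      · subst h; simp; ring
      · simp [h]
    rw [sum_congr rfl fun a _ => this a, sum_add_distrib]
    simp
    ring

/-- the comparison of the levels `k + i` and `k` -/
theorem z3_cmp {σ : Fin d → List (Fin d)} {M : Matrix (Fin d) (Fin d) ℤ} {θ : ℝ}
    {L f : Fin d → ℝ} (h : PFD σ M θ L f) {y : Fin d → ℂ} (hy : ∀ a, ‖y a‖ = 1) (k i : ℕ)
    {ε A : ℝ} (hε : 0 ≤ ε) (hA : 0 ≤ A) (b c : Fin d) (hE : ∀ a, ‖EW σ y k a c‖ ≤ A)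
    (hyw : ∀ a, ‖yw y (T σ k a) - 1‖ ≤ ε) :
    ‖EW σ y (k + i) b c - ∑ a, (((M ^ i) a b : ℤ) : ℂ) * EW σ y k a c‖ ≤
      ((T σ i b).length : ℝ) ^ 2 * ε * A := by
  have e1 : EW σ y (k + i) b c = WS (fun a => yw y (T σ k a)) (fun a => EW σ y k a c) (T σ i b) := by
    unfold EW
    rw [show k + i = i + k from add_comm _ _, T_add, z3_WS_flatMap]
  have e2 : ∑ a, (((M ^ i) a b : ℤ) : ℂ) * EW σ y k a c
      = WS (fun _ => 1) (fun a => EW σ y k a c) (T σ i b) := by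
    rw [z3_WS_one]
    refine sum_congr rfl fun a _ => ?_
    rw [← count_T h.cntM i b a]
    push_cast
    rfl
  rw [e1, e2]
  exact WS_sub_le (fun a => wflat_yw_norm hy _) (fun _ => by simp) hA hE hyw hε _

theorem st_Z3 (hGF : ST_GF) (hLINK : ST_LINK) (hWREP : ST_WREP) (hZ1 : ST_Z1) (hZ2 : ST_Z2) :
    ST_Z3 := by
  intro d σ M θ L f gam hD C0 K1 CF cF hWF s n p q v hv hPos n0
  obtain ⟨hC0, hK1, hCF, hcF, hflat⟩ := hWF
  have hθ := hD.one_lt
  have hgam := hGF d σ M θ L f gam hD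
  obtain ⟨_, _, hL3⟩ := hLINK d L gam hgam s n p q v hv
  -- bound of the lengths
  obtain ⟨Bd, hBd⟩ : ∃ Bd : ℝ, 0 ≤ Bd ∧ ∀ i ≤ n0, ∀ b, ((T σ i b).length : ℝ) ≤ Bd := by
    refine ⟨∑ i ∈ range (n0 + 1), ∑ b, ((T σ i b).length : ℝ), by positivity, ?_⟩
    intro i hi b
    have h1 : ((T σ i b).length : ℝ) ≤ ∑ b, ((T σ i b).length : ℝ) :=
      single_le_sum (f := fun b => ((T σ i b).length : ℝ)) (fun _ _ => by positivity) (mem_univ b)
    have h2 : ∑ b, ((T σ i b).length : ℝ) ≤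
        ∑ i ∈ range (n0 + 1), ∑ b, ((T σ i b).length : ℝ) :=
      single_le_sum (f := fun i => ∑ b, ((T σ i b).length : ℝ)) (fun _ _ => by positivity)
        (mem_range.2 (by omega))
    exact h1.trans h2
  obtain ⟨hBd0, hBd⟩ := hBd
  set m0 := min 1 (cF / (2 * CF)) with hm0
  have hm00 : 0 < m0 := lt_min one_pos (by positivity)
  set ε := m0 / (Bd ^ 2 + 1) with hε
  have hε0 : 0 < ε := by positivity
  have hεB : Bd ^ 2 * ε ≤ m0 := by
    rw [hε, ← mul_div_assoc, div_le_iff₀ (by positivity)]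
    nlinarith
  obtain ⟨c, hc0, hc⟩ := hZ2 d ε hε0
  obtain ⟨c0, n', k0, hc00, hk0⟩ := hZ1 s n (fun t z => VV gam L (yv p q z.1 z.2) t) θ C0 K1 hθ hC0
    hK1 (fun t ht => (hL3 t ht).2.1)
    (fun t ht z => (hWREP d σ M θ L f gam hD _ (z3_norm_yv p q z.1 z.2) t ht).1)
    (fun t ht η => ⟨((hL3 t ht).2.2 η).1, ((hL3 t ht).2.2 η).2.le⟩) hPos (c / 2) (by positivity) n0
  -- choice of the level
  obtain ⟨k, hkk, hkb⟩ : ∃ k, k0 ≤ k ∧ (k : ℝ) + 1 ≤ Real.sqrt (c0 * θ ^ k) := by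
    have h1 : Tendsto (fun k : ℕ => ((k : ℝ)) ^ 2 / θ ^ k) atTop (𝓝 0) := by
      have := tendsto_pow_const_div_const_pow_of_one_lt 2 hθ
      exact this
    have h2 : ∀ᶠ k : ℕ in atTop, ((k : ℝ)) ^ 2 / θ ^ k < c0 / 4 :=
      (tendsto_order.1 h1).2 _ (by positivity)
    obtain ⟨k, hk1, hk2, hk3⟩ := (h2.and ((eventually_ge_atTop k0).and
      (eventually_ge_atTop 1))).exists
    refine ⟨k, hk2, ?_⟩
    apply Real.le_sqrt_of_sq_le
    have hθk : 0 < θ ^ k := by positivity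
    rw [div_lt_iff₀ hθk] at hk1
    have hk3' : (1 : ℝ) ≤ k := by exact_mod_cast hk3
    nlinarith
  have hbad := hk0 k hkk
  have hinv1 : ∀ m : ℕ, (tor m).IsAddLeftInvariant := fun m => by
    unfold tor
    infer_instance
  have hinv : ((tor s).prod (tor n)).IsAddLeftInvariant := by
    have h1 := hinv1 s
    have h2 := hinv1 n
    exact Measure.prod.instIsAddLeftInvariant
  set P : Measure (UnitAddTorus (Fin s) × UnitAddTorus (Fin n)) := (tor s).prod (tor n) with hP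
  have hnear := hc (UnitAddTorus (Fin s) × UnitAddTorus (Fin n)) P inferInstance
    (fun g A => by
      have : (fun x : UnitAddTorus (Fin s) × UnitAddTorus (Fin n) => x - g) = fun x => (-g) + x := by
        funext x; rw [sub_eq_add_neg, add_comm]
      rw [this]
      exact measure_preimage_add P (-g) A)
    (fun a z => yw (yv p q z.1 z.2) (T σ k a))
    (fun a => (z3_yw_cont p q _).measurable)
    (fun a z => wflat_yw_norm (z3_norm_yv p q z.1 z.2) _)
    (fun a z w => z3_yw_sub p q _ z w)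
  -- a good point
  obtain ⟨z, hz1, hz2⟩ : ∃ z : UnitAddTorus (Fin s) × UnitAddTorus (Fin n),
      (∀ a, ‖yw (yv p q z.1 z.2) (T σ k a) - 1‖ < ε) ∧
      ∃ ρ, c0 ≤ ρ ∧ Cnd θ C0 K1 ρ k n' n0 (fun t => VV gam L (yv p q z.1 z.2) t) := by
    by_contra hcon
    push Not at hcon
    have hsub : {z : UnitAddTorus (Fin s) × UnitAddTorus (Fin n) |
        ∀ a, ‖yw (yv p q z.1 z.2) (T σ k a) - 1‖ < ε} ⊆
        {z | ¬ ∃ ρ, c0 ≤ ρ ∧ Cnd θ C0 K1 ρ k n' n0 (fun t => VV gam L (yv p q z.1 z.2) t)} := by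
      intro z hz
      show ¬ _
      push Not
      exact hcon z hz
    have h1 := (hnear.trans (measure_mono hsub)).trans hbad
    have h2 := (ENNReal.ofReal_le_ofReal_iff (by positivity)).1 h1
    linarith
  obtain ⟨ρ, hρ, hC⟩ := hz2
  have hρ0 : 0 < ρ := lt_of_lt_of_le hc00 hρ
  set y := yv p q z.1 z.2 with hydef
  have hy : ∀ a, ‖y a‖ = 1 := z3_norm_yv p q z.1 z.2
  have hkρ : (k : ℝ) + 1 ≤ Real.sqrt (ρ * θ ^ k) :=
    hkb.trans (Real.sqrt_le_sqrt (mul_le_mul_of_nonneg_right hρ (by positivity)))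
  have hfl := hflat y hy ρ hρ0 k n' n0 hkρ hC
  set X := Real.sqrt (ρ * θ ^ k) with hX
  have hX0 : 0 < X := Real.sqrt_pos.2 (by positivity)
  have hXi : ∀ i : ℕ, Real.sqrt (ρ * θ ^ (k + i)) = X * Real.sqrt (θ ^ i) := by
    intro i
    rw [hX, ← Real.sqrt_mul (by positivity)]
    congr 1
    rw [pow_add]; ring
  refine ⟨fun a c => EW σ y k a c / X, ?_⟩
  intro i hi
  have hs1 : 1 ≤ Real.sqrt (θ ^ i) := by
    rw [Real.one_le_sqrt]
    exact one_le_pow₀ hθ.le
  obtain ⟨hu, b, c', hl⟩ := hfl (k + i) (by omega) (by omega)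
  obtain ⟨hu0, _⟩ := hfl k le_rfl (by omega)
  have hsum : ∀ b c, ∑ a, (((M ^ i) a b : ℤ) : ℂ) * (EW σ y k a c / X)
      = (∑ a, (((M ^ i) a b : ℤ) : ℂ) * EW σ y k a c) / X := by
    intro b c
    rw [sum_div]
    exact sum_congr rfl fun a _ => by rw [mul_div_assoc]
  have hnorm : ∀ b c, ‖∑ a, (((M ^ i) a b : ℤ) : ℂ) * (EW σ y k a c / X)‖
      = ‖∑ a, (((M ^ i) a b : ℤ) : ℂ) * EW σ y k a c‖ / X := by
    intro b c
    rw [hsum, norm_div, Complex.norm_real, Real.norm_of_nonneg hX0.le]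
  have hcmp : ∀ b c, ‖EW σ y (k + i) b c - ∑ a, (((M ^ i) a b : ℤ) : ℂ) * EW σ y k a c‖ ≤
      m0 * (CF * X) := by
    intro b c
    have h1 := z3_cmp hD.toPFD hy k i hε0.le (by positivity : 0 ≤ CF * X) b c
      (fun a => hu0 a c) (fun a => (hz1 a).le)
    refine h1.trans (mul_le_mul_of_nonneg_right ?_ (by positivity))
    have h2 : ((T σ i b).length : ℝ) ^ 2 ≤ Bd ^ 2 :=
      pow_le_pow_left₀ (Nat.cast_nonneg _) (hBd i hi b) 2
    calc ((T σ i b).length : ℝ) ^ 2 * ε ≤ Bd ^ 2 * ε := mul_le_mul_of_nonneg_right h2 hε0.le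
      _ ≤ m0 := hεB
  have hm1 : m0 ≤ 1 := min_le_left _ _
  have hm2 : m0 * CF ≤ cF / 2 := by
    have := mul_le_mul_of_nonneg_right (min_le_right 1 (cF / (2 * CF))) hCF.le
    refine this.trans (le_of_eq ?_)
    field_simp
  refine ⟨?_, b, c', ?_⟩
  · intro b c
    rw [hnorm, div_le_iff₀ hX0]
    have h1 := norm_sub_norm_le (∑ a, (((M ^ i) a b : ℤ) : ℂ) * EW σ y k a c) (EW σ y (k + i) b c)
    rw [norm_sub_rev] at h1
    have h2 := hcmp b c
    have h3 := hu b c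
    rw [hXi] at h3
    have h4 : m0 * (CF * X) ≤ CF * (X * Real.sqrt (θ ^ i)) := by
      calc m0 * (CF * X) ≤ 1 * (CF * X) := mul_le_mul_of_nonneg_right hm1 (by positivity)
        _ = CF * (X * 1) := by ring
        _ ≤ CF * (X * Real.sqrt (θ ^ i)) := by gcongr
    linarith
  · rw [hnorm, le_div_iff₀ hX0]
    have h1 := norm_sub_norm_le (EW σ y (k + i) b c') (∑ a, (((M ^ i) a b : ℤ) : ℂ) * EW σ y k a c')
    have h2 := hcmp b c'
    rw [hXi] at hl
    have h4 : m0 * (CF * X) ≤ cF / 2 * (X * Real.sqrt (θ ^ i)) := by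
      calc m0 * (CF * X) = (m0 * CF) * X := by ring
        _ ≤ cF / 2 * X := mul_le_mul_of_nonneg_right hm2 hX0.le
        _ = cF / 2 * (X * 1) := by ring
        _ ≤ cF / 2 * (X * Real.sqrt (θ ^ i)) := by gcongr
    linarith

end Pool.Agent.Helper97.FS
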